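import Pool.Agent.X298.HT.Defs

/-!
# Twists by the characters of an abelian group, class sums and rounding: definitions
-/

set_option autoImplicit false

open Filter Topology
open IsDedekindDomain NumberField

namespace Pool.Agent.X298.ZE

open Pool.Agent.X298.ST Pool.Agent.X298.II Pool.Agent.X298.HT

variable {K : Type} [Field K] [NumberField K] {S : Set (HeightOneSpectrum (𝓞 K))} {n : ℕ} {G : Type} [CommGroup G]

/-- The coefficients of `log L_S(s, π ⊗ χ)`: `tr π_v^k χ(φ(v))^k`, `v = x.1`, `k = x.2 + 1`. -/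
noncomputable def tw (π : Param S n) (φ : Places S → G) (χ : G →* ℂ) (x : Places S × ℕ) : ℂ :=
  π.pw x.1 (x.2 + 1) * χ (φ x.1) ^ (x.2 + 1)

open Classical in
/-- The term `tr π_v^k q_v^{-k/2} e^{iγu} / (k Γ(1 + u))`, `u = k log q_v / T`, if `φ(v)^k = h`, and `0` otherwise. -/
noncomputable def cTerm (π : Param S n) (φ : Places S → G) (γ T : ℝ) (h : G) (x : Places S × ℕ) : ℂ :=
  if φ x.1 ^ (x.2 + 1) = h then
    π.pw x.1 (x.2 + 1) * ((nrm x.1 : ℂ) ^ (-(1 / 2 : ℂ))) ^ (x.2 + 1) *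
      Complex.exp ((γ * ((x.2 + 1) * Real.log (nrm x.1) / T) : ℝ) * Complex.I) /
    (((x.2 + 1) * Real.Gamma (1 + (x.2 + 1) * Real.log (nrm x.1) / T) : ℝ) : ℂ)
  else 0

/-- The class sum `S_h(T)`: the sum of the terms over the prime powers with `φ(v)^k = h`. -/
noncomputable def cSum (π : Param S n) (φ : Places S → G) (γ T : ℝ) (h : G) : ℂ := ∑' x, cTerm π φ γ T h x

/-- `X_g(T) = |G|⁻¹ ∑_χ w_χ χ(g)⁻¹ exp (∑_h χ(h) S_h(T))` -/
noncomputable def approx (π : Param S n) (φ : Places S → G) (w : (G →* ℂ) → ℂ) (γ T : ℝ) (g : G) : ℂ :=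
  (∑ᶠ χ : G →* ℂ, w χ * χ g⁻¹ * Complex.exp (∑ᶠ h : G, χ h * cSum π φ γ T h)) / Nat.card G

end Pool.Agent.X298.ZE
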