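import Pool.Agent.X298.ZE.Main
import Pool.Agent.X298.ST.Main

/-!
# Zeta elements of finite layers by rounding
-/

set_option autoImplicit false

open Filter Topology Asymptotics
open IsDedekindDomain NumberField

namespace Pool.Agent.X298.ZE

open Pool.Agent.X298.ST Pool.Agent.X298.II Pool.Agent.X298.HT

variable {K : Type} [Field K] [NumberField K] {S : Set (HeightOneSpectrum (𝓞 K))} {n : ℕ} {G : Type} [CommGroup G]
  [Finite G]

theorem main (π : Param S n) (φ : Places S → G) (Λ : (G →* ℂ) → ℂ → ℂ)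
    (hc : ∀ χ, IsCont (tw π φ χ) (1 / 2) (Λ χ)) (ha : ∀ χ, AnalyticAt ℂ (Λ χ) (1 / 2)) {γ : ℝ}
    (hγ : Real.pi / 2 < γ) (w : (G →* ℂ) → ℂ)
    {F : Type} [Field F] [NumberField F] [IsGalois ℚ F] (ι : G ≃* (F ≃ₐ[ℚ] F)) (τ : F →+* ℂ) (x : F)
    (hx : ∀ χ : G →* ℂ, ∑ᶠ g : G, χ g * τ (ι g x) = w χ * Λ χ (1 / 2))
    (N : ℕ) (hint : IsIntegral ℤ ((N : F) * x)) :
    (∀ T : ℝ, 0 < T → ∀ h : G, Summable fun v => ‖cTerm π φ γ T h v‖) ∧
    (∀ g : G, (fun T : ℝ => approx π φ w γ T g - τ (ι g x)) =O[atTop] (fun T : ℝ => 1 / T)) ∧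
    ∀ᶠ T : ℝ in atTop, ∀ y : 𝓞 F,
      (∀ g : G, ‖τ (ι g (y : F)) - N * approx π φ w γ T g‖ < 1 / 2) ↔ (y : F) = N * x := by
  have h2 := fun g : G => approx_asy π φ Λ hc ha hγ w (fun g => τ (ι g x)) hx g
  refine ⟨fun T hT h => cTerm_summable π φ γ hT h, h2, ?_⟩
  have h3 : ∀ g : G, ∀ᶠ T : ℝ in atTop, ‖τ (ι g ((N : F) * x)) - N * approx π φ w γ T g‖ < 1 / 2 := by
    intro g
    have h4 : Tendsto (fun T : ℝ => (N : ℂ) * (approx π φ w γ T g - τ (ι g x))) atTop (𝓝 (N * 0)) :=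
      ((h2 g).trans_tendsto (tendsto_const_nhds.div_atTop tendsto_id)).const_mul _
    rw [mul_zero] at h4
    have h5 := h4.norm
    rw [norm_zero] at h5
    filter_upwards [h5.eventually (gt_mem_nhds (by norm_num : (0 : ℝ) < 1 / 2))] with T hT
    rw [map_mul, map_mul, map_natCast, map_natCast, norm_sub_rev, ← mul_sub]
    exact hT
  filter_upwards [Filter.eventually_all.2 h3] with T hT y
  constructor
  · intro hy
    have h6 : ((y : F) - N * x) = 0 := by
      let z : 𝓞 F := y - ⟨(N : F) * x, hint⟩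
      have hz : z = 0 := by
        refine int_zero z fun ρ => ?_
        obtain ⟨g, hg⟩ := embeddings τ ρ
        have h7 := hy (ι.symm g)
        have h8 := hT (ι.symm g)
        rw [ι.apply_symm_apply] at h7 h8
        rw [hg]
        have h9 : τ (g (z : F)) = (τ (g (y : F)) - N * approx π φ w γ T (ι.symm g)) -
            (τ (g ((N : F) * x)) - N * approx π φ w γ T (ι.symm g)) := by
          have h10 : (z : F) = (y : F) - (N : F) * x := rfl
          rw [h10, map_sub, map_sub]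
          ring
        rw [h9]
        calc _ ≤ _ := norm_sub_le _ _
          _ < 1 / 2 + 1 / 2 := add_lt_add h7 h8
          _ = 1 := by norm_num
      exact congrArg (fun t : 𝓞 F => (t : F)) hz
    exact sub_eq_zero.1 h6
  · intro hy g
    rw [hy]
    exact hT g

end Pool.Agent.X298.ZE
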