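import Pool.Agent.X298.ZE.Defs
import Pool.Agent.X298.GP.Main
import Pool.Agent.X298.ST.Four
import Pool.Agent.X298.ST.Ab

/-!
# Twists by the characters of an abelian group, class sums and rounding
-/

set_option autoImplicit false

open Filter Topology Asymptotics
open IsDedekindDomain NumberField

namespace Pool.Agent.X298.ZE

open Pool.Agent.X298.ST Pool.Agent.X298.II Pool.Agent.X298.HT

variable {K : Type} [Field K] [NumberField K] {S : Set (HeightOneSpectrum (𝓞 K))} {n : ℕ} {G : Type} [CommGroup G]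
  [Finite G]

omit [NumberField K] in
theorem tw_le (π : Param S n) (φ : Places S → G) (χ : G →* ℂ) (x : Places S × ℕ) : ‖tw π φ χ x‖ ≤ n := by
  unfold tw
  rw [norm_mul, norm_pow, norm_ch, one_pow, mul_one]
  exact pw_le _ _ _

theorem cTerm_summable (π : Param S n) (φ : Places S → G) (γ : ℝ) {T : ℝ} (hT : 0 < T) (h : G) :
    Summable fun x => ‖cTerm π φ γ T h x‖ := by
  refine Summable.of_nonneg_of_le (fun x => norm_nonneg _) (fun x => ?_) (b_summable (tw_le π φ 1) (1 / 2) γ hT)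
  have h1 : bTerm (tw π φ 1) (1 / 2) γ T x =
      π.pw x.1 (x.2 + 1) * ((nrm x.1 : ℂ) ^ (-(1 / 2 : ℂ))) ^ (x.2 + 1) *
        Complex.exp ((γ * ((x.2 + 1) * Real.log (nrm x.1) / T) : ℝ) * Complex.I) /
      (((x.2 + 1) * Real.Gamma (1 + (x.2 + 1) * Real.log (nrm x.1) / T) : ℝ) : ℂ) := by
    unfold bTerm tw
    simp
  unfold cTerm
  split_ifs
  · rw [← h1]
  · rw [norm_zero]
    exact norm_nonneg _

theorem chi_sum (π : Param S n) (φ : Places S → G) (χ : G →* ℂ) (γ : ℝ) {T : ℝ} (hT : 0 < T) :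
    bSum (tw π φ χ) (1 / 2) γ T = ∑ᶠ h : G, χ h * cSum π φ γ T h := by
  classical
  have := Fintype.ofFinite G
  rw [finsum_eq_sum_of_fintype]
  unfold bSum cSum
  have h1 : ∀ h : G, χ h * ∑' x, cTerm π φ γ T h x = ∑' x, χ h * cTerm π φ γ T h x := fun h => tsum_mul_left.symm
  rw [Finset.sum_congr rfl fun h _ => h1 h,
    ← Summable.tsum_finsetSum fun h _ => ((cTerm_summable π φ γ hT h).of_norm).mul_left (χ h)]
  refine tsum_congr fun x => ?_
  rw [Finset.sum_eq_single (φ x.1 ^ (x.2 + 1))]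
  · unfold cTerm bTerm tw
    rw [if_pos rfl, map_pow]
    ring
  · intro h _ hne
    unfold cTerm
    rw [if_neg (Ne.symm hne), mul_zero]
  · intro h
    exact absurd (Finset.mem_univ _) h

/-- the central value of each twist as a limit -/
theorem exp_chi (π : Param S n) (φ : Places S → G) (χ : G →* ℂ) {Λ : ℂ → ℂ} (hc : IsCont (tw π φ χ) (1 / 2) Λ)
    (ha : AnalyticAt ℂ Λ (1 / 2)) {γ : ℝ} (hγ : Real.pi / 2 < γ) :
    (fun T : ℝ => Complex.exp (∑ᶠ h : G, χ h * cSum π φ γ T h) - Λ (1 / 2)) =O[atTop] (fun T : ℝ => 1 / T) := by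
  obtain ⟨m, r₀, h1, h2⟩ := b_hol (tw_le π φ χ) hc ha hγ
  rw [h1]
  refine (Pool.Agent.X298.GP.exp_asy h2).congr' ?_ EventuallyEq.rfl
  filter_upwards [eventually_gt_atTop (0 : ℝ)] with T hT
  rw [chi_sum π φ χ γ hT]

/-- Fourier inversion -/
theorem four (a : G → ℂ) (l : (G →* ℂ) → ℂ) (h : ∀ χ : G →* ℂ, ∑ᶠ g : G, χ g * a g = l χ) (g : G) :
    a g = (∑ᶠ χ : G →* ℂ, χ g⁻¹ * l χ) / Nat.card G := by
  classical
  have := Fintype.ofFinite G
  have := Fintype.ofFinite (G →* ℂ)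
  rw [eq_div_iff (card_ne (G := G)), finsum_eq_sum_of_fintype]
  have h1 : ∀ χ : G →* ℂ, χ g⁻¹ * l χ = ∑ h' : G, χ (g⁻¹ * h') * a h' := by
    intro χ
    rw [← h χ, finsum_eq_sum_of_fintype, Finset.mul_sum]
    refine Finset.sum_congr rfl fun h' _ => ?_
    rw [map_mul]
    ring
  rw [Finset.sum_congr rfl fun χ _ => h1 χ, Finset.sum_comm]
  have h2 : ∀ h' : G, ∑ χ : G →* ℂ, χ (g⁻¹ * h') * a h' = (if g = h' then (Nat.card G : ℂ) else 0) * a h' := by
    intro h'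
    rw [← Finset.sum_mul]
    congr 1
    have h3 := orth_ch (g⁻¹ * h')
    rw [finsum_eq_sum_of_fintype] at h3
    rw [h3]
    have h4 : g⁻¹ * h' = 1 ↔ g = h' := by
      rw [inv_mul_eq_one]
    by_cases h5 : g = h'
    · rw [if_pos h5, if_pos (h4.mpr h5)]
    · rw [if_neg h5, if_neg (fun h6 => h5 (h4.mp h6))]
  rw [Finset.sum_congr rfl fun h' _ => h2 h']
  simp only [ite_mul, zero_mul]
  rw [Finset.sum_ite_eq]
  simp
  ring

/-- the approximation -/
theorem approx_asy (π : Param S n) (φ : Places S → G) (Λ : (G →* ℂ) → ℂ → ℂ)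
    (hc : ∀ χ, IsCont (tw π φ χ) (1 / 2) (Λ χ)) (ha : ∀ χ, AnalyticAt ℂ (Λ χ) (1 / 2)) {γ : ℝ}
    (hγ : Real.pi / 2 < γ) (w : (G →* ℂ) → ℂ) (a : G → ℂ)
    (h : ∀ χ : G →* ℂ, ∑ᶠ g : G, χ g * a g = w χ * Λ χ (1 / 2)) (g : G) :
    (fun T : ℝ => approx π φ w γ T g - a g) =O[atTop] (fun T : ℝ => 1 / T) := by
  classical
  have := Fintype.ofFinite (G →* ℂ)
  have h1 : (fun T : ℝ => (∑ χ : G →* ℂ, w χ * χ g⁻¹ *
      (Complex.exp (∑ᶠ h : G, χ h * cSum π φ γ T h) - Λ χ (1 / 2))) * (Nat.card G : ℂ)⁻¹) =O[atTop]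
        (fun T : ℝ => 1 / T) := by
    have h2 : (fun T : ℝ => ∑ χ : G →* ℂ, w χ * χ g⁻¹ *
        (Complex.exp (∑ᶠ h : G, χ h * cSum π φ γ T h) - Λ χ (1 / 2))) =O[atTop] (fun T : ℝ => 1 / T) :=
      IsBigO.fun_sum fun χ _ => (exp_chi π φ χ (hc χ) (ha χ) hγ).const_mul_left _
    exact (h2.const_mul_left ((Nat.card G : ℂ)⁻¹)).congr_left fun T => by ring
  refine h1.congr_left fun T => ?_
  rw [four a _ h g]
  unfold approx
  simp only [finsum_eq_sum_of_fintype]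
  simp only [mul_sub, Finset.sum_sub_distrib]
  rw [div_sub_div_same, div_eq_mul_inv]
  congr 2
  refine Finset.sum_congr rfl fun χ _ => ?_
  ring

/-- all the embeddings of a Galois extension of `ℚ` -/
theorem embeddings {F : Type} [Field F] [NumberField F] [IsGalois ℚ F] (τ ρ : F →+* ℂ) :
    ∃ g : F ≃ₐ[ℚ] F, ∀ x, ρ x = τ (g x) := by
  let : Algebra F ℂ := τ.toAlgebra
  have : IsScalarTower ℚ F ℂ := IsScalarTower.of_algebraMap_eq fun q => by
    rw [RingHom.algebraMap_toAlgebra]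
    exact (map_ratCast τ q).symm ▸ by simp
  let ρ' : F →ₐ[ℚ] ℂ := ρ.toRatAlgHom
  have h1 : ∀ x, algebraMap F ℂ (AlgHom.restrictNormal' ρ' F x) = ρ' (algebraMap F F x) :=
    fun x => AlgHom.restrictNormal_commutes ρ' F x
  exact ⟨AlgHom.restrictNormal' ρ' F, fun x => (h1 x).symm⟩

end Pool.Agent.X298.ZE
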